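import Pool.Agent.V11122.Hd.Main

/-!
# `k`-sets in any dimension after the deletion of a small proportion of the points

`d ≥ 2`, `P` is a finite set of points of `ℝ^d` in general position (no hyperplane contains more than `d` of them).
-/

set_option autoImplicit false

namespace Pool.Agent.Results.MP_77a832_co.FewDeletionsAnyDimension

open Finset

/-- no hyperplane contains more than `d` points of `P` -/
def GeneralPosition {d : ℕ} (P : Finset (Fin d → ℝ)) : Prop :=
  ∀ u : (Fin d → ℝ) →ₗ[ℝ] ℝ, u ≠ 0 → ∀ r : ℝ, {x | x ∈ P ∧ u x = r}.ncard ≤ d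

/-- the `k`-sets of `Q`: the sets of exactly `k` points which are the intersection of `Q` with an open half-space -/
def kSets {d : ℕ} (Q : Finset (Fin d → ℝ)) (k : ℕ) : Set (Set (Fin d → ℝ)) :=
  {S | S.ncard = k ∧ ∃ (u : (Fin d → ℝ) →ₗ[ℝ] ℝ) (r : ℝ), u ≠ 0 ∧ S = {x | x ∈ Q ∧ r < u x}}

open Pool.Agent.V11122.Hd in
/-- For every `d ≥ 2` there is a constant `K` such that from every nonempty finite set `P` of points of `ℝ^d` in general
position one can delete for all `0 < α < 1` and `0 < δ ≤ 1` at most `δ |P|` points so that the set `Q` of the remaining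
points has at most `K |P|^(d-1) / (δ min (α, 1 - α))` `k`-sets for `k = ⌊α |Q|⌋`. -/
theorem result (d : ℕ) (hd : 2 ≤ d) : ∃ K : ℝ, 0 < K ∧
    ∀ P : Finset (Fin d → ℝ), P.Nonempty → GeneralPosition P →
      ∀ α δ : ℝ, 0 < α → α < 1 → 0 < δ → δ ≤ 1 →
        ∃ Q ⊆ P, (1 - δ) * P.card ≤ Q.card ∧ (kSets Q ⌊α * Q.card⌋₊).Finite ∧
          ((kSets Q ⌊α * Q.card⌋₊).ncard : ℝ) ≤
            K * (P.card : ℝ) ^ (d - 1) / (δ * min α (1 - α)) := by
  classical
  obtain ⟨K, hK, hmain⟩ := Pool.Agent.V11122.Hd.main (d := d) (by omega)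
  refine ⟨K, hK, ?_⟩
  intro P hne hG α δ hα0 hα1 hδ0 hδ1
  set n := P.card with hnP
  have hn : 0 < n := hne.card_pos
  let f : Fin n → (Fin d → ℝ) := fun i => (P.equivFin.symm i : Fin d → ℝ)
  have hf : Function.Injective f := by
    intro i j h
    exact P.equivFin.symm.injective (Subtype.ext h)
  have hfP : ∀ i, f i ∈ P := fun i => (P.equivFin.symm i).2
  have hGP : GenPos f := by
    intro u hu r
    have h1 := hG u hu r
    refine le_trans ?_ h1
    rw [← card_image_of_injective _ hf, ← Set.ncard_coe_finset]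
    apply Set.ncard_le_ncard
    · intro x hx
      rw [mem_coe, mem_image] at hx
      obtain ⟨t, ht, rfl⟩ := hx
      exact ⟨hfP t, (mem_filter.mp ht).2⟩
    · exact (P.finite_toSet).subset fun x hx => hx.1
  obtain ⟨D, hD1, hD2⟩ := hmain n f hn hGP α δ hα0 hα1 hδ0 hδ1
  have hDn : D.card ≤ n := by simpa using card_le_univ D
  have hQc : (Dᶜ.image f).card = Dᶜ.card := card_image_of_injective _ hf
  have hsub : kSets (Dᶜ.image f) ⌊α * (Dᶜ.image f).card⌋₊ ⊆
      (fun A : Finset (Fin n) => f '' ((A \ D : Finset (Fin n)) : Set (Fin n))) ''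
        (((traces f).filter (fun A => (A \ D).card = ⌊α * Dᶜ.card⌋₊) : Finset (Finset (Fin n))) :
          Set (Finset (Fin n))) := by
    rintro S ⟨hS, u, r, hu, rfl⟩
    set A : Finset (Fin n) := univ.filter (fun t => r < u (f t)) with hA
    have hAS : f '' ((A \ D : Finset (Fin n)) : Set (Fin n)) =
        {x | x ∈ Dᶜ.image f ∧ r < u x} := by
      ext x
      constructor
      · rintro ⟨t, ht, rfl⟩
        rw [mem_coe, mem_sdiff, hA, mem_filter] at ht
        exact ⟨mem_image_of_mem _ (mem_compl.mpr ht.2), ht.1.2⟩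
      · rintro ⟨hx, hr⟩
        obtain ⟨t, ht, rfl⟩ := mem_image.mp hx
        refine ⟨t, ?_, rfl⟩
        rw [mem_coe, mem_sdiff, hA, mem_filter]
        exact ⟨⟨mem_univ _, hr⟩, mem_compl.mp ht⟩
    refine ⟨A, ?_, hAS⟩
    rw [mem_coe, mem_filter]
    refine ⟨?_, ?_⟩
    · unfold traces
      rw [mem_filter]
      refine ⟨mem_univ _, u, r, hu, fun t => ?_⟩
      rw [hA, mem_filter]
      exact ⟨fun h => h.2, fun h => ⟨mem_univ _, h⟩⟩
    · rw [← hAS, Set.ncard_image_of_injective _ hf, Set.ncard_coe_finset, hQc] at hS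
      exact hS
  have hfin := ((((traces f).filter (fun A => (A \ D).card = ⌊α * Dᶜ.card⌋₊)).finite_toSet).image
    (fun A : Finset (Fin n) => f '' ((A \ D : Finset (Fin n)) : Set (Fin n))))
  refine ⟨Dᶜ.image f, ?_, ?_, hfin.subset hsub, ?_⟩
  · intro x hx
    obtain ⟨t, -, rfl⟩ := mem_image.mp hx
    exact hfP t
  · rw [hQc, card_compl, Fintype.card_fin, Nat.cast_sub hDn]
    linarith
  · refine le_trans ?_ hD2
    have h1 := (Set.ncard_le_ncard hsub hfin).trans (Set.ncard_image_le (Finset.finite_toSet _))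
    rw [Set.ncard_coe_finset] at h1
    unfold partCount
    exact_mod_cast h1

end Pool.Agent.Results.MP_77a832_co.FewDeletionsAnyDimension
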